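import Pool.Agent.Helper42.RZ.Basic
import Pool.Agent.Helper42.RZ.St.S3
import Pool.Agent.Helper42.RZ.St.S4

/-! # RZ-S5: positive definiteness of `exp (- w |x - y|)` on the sphere -/

set_option autoImplicit false

open MeasureTheory Set Metric Filter Topology
open scoped ENNReal
open Pool.Agent.Helper42.RZ

namespace Pool.Agent.Helper62.RZ

section Label

variable {M : ℕ}

/-- the product law of `M` random half spaces -/
noncomputable abbrev plM (M : ℕ) : Measure (Fin M → E3 × ℝ) := Measure.pi (fun _ : Fin M => plm)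

open Classical in
/-- the label of a point with respect to `M` half spaces -/
noncomputable def label (ω : Fin M → E3 × ℝ) (x : E3) : Finset (Fin M) :=
  Finset.univ.filter (fun m => x ∈ hs (ω m))

theorem label_eq_iff (ω : Fin M → E3 × ℝ) (x y : E3) :
    label ω x = label ω y ↔ ∀ m, x ∈ hs (ω m) ↔ y ∈ hs (ω m) := by
  classical
  constructor
  · intro h m
    have := congrArg (fun s => m ∈ s) h
    simpa [label] using this
  · intro h
    ext m
    simp [label, h m]

theorem measurableSet_label (c : Finset (Fin M)) :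
    MeasurableSet {q : (Fin M → E3 × ℝ) × E3 | label q.1 q.2 = c} := by
  classical
  have h : {q : (Fin M → E3 × ℝ) × E3 | label q.1 q.2 = c} =
      ⋂ m : Fin M, {q | q.2 ∈ hs (q.1 m) ↔ m ∈ c} := by
    ext q
    simp only [mem_ofPred_eq, mem_iInter]
    constructor
    · intro h m
      rw [← h]
      simp [label]
    · intro h
      ext m
      simp [label, h m]
  rw [h]
  refine MeasurableSet.iInter fun m => ?_
  have h1 : MeasurableSet {q : (Fin M → E3 × ℝ) × E3 | q.2 ∈ hs (q.1 m)} := by
    have : Measurable (fun q : (Fin M → E3 × ℝ) × E3 => ((q.1 m, q.2) : (E3 × ℝ) × E3)) := by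
      fun_prop
    exact this measurableSet_hs
  by_cases hm : m ∈ c
  · simpa [hm] using h1
  · have h2 : {q : (Fin M → E3 × ℝ) × E3 | q.2 ∈ hs (q.1 m) ↔ m ∈ c} =
        {q : (Fin M → E3 × ℝ) × E3 | q.2 ∈ hs (q.1 m)}ᶜ := by
      ext q
      simp [hm]
    rw [h2]
    exact h1.compl

open Classical in
/-- the indicator of `label ω x = label ω y` -/
noncomputable def II (ω : Fin M → E3 × ℝ) (x y : E3) : ℝ := if label ω x = label ω y then 1 else 0

open Classical in
/-- the indicator of `label ω x = c` -/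
noncomputable def Lc (c : Finset (Fin M)) (ω : Fin M → E3 × ℝ) (x : E3) : ℝ :=
  if label ω x = c then 1 else 0

theorem II_eq (ω : Fin M → E3 × ℝ) (x y : E3) : II ω x y = ∑ c, Lc c ω x * Lc c ω y := by
  classical
  unfold II Lc
  simp only [← ite_and, mul_ite, mul_one, mul_zero]
  by_cases h : label ω x = label ω y
  · rw [if_pos h, Finset.sum_eq_single (label ω y)]
    · simp [h]
    · intro b _ hb
      rw [if_neg]
      rintro ⟨h1, h2⟩
      exact hb h1.symm
    · simp
  · rw [if_neg h, Finset.sum_eq_zero]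
    intro b _
    rw [if_neg]
    rintro ⟨h1, h2⟩
    exact h (h2.trans h1.symm)

theorem measurable_Lc (c : Finset (Fin M)) :
    Measurable (fun q : (Fin M → E3 × ℝ) × E3 => Lc c q.1 q.2) := by
  classical
  exact Measurable.ite (measurableSet_label c) measurable_const measurable_const

theorem Lc_nonneg (c : Finset (Fin M)) (ω : Fin M → E3 × ℝ) (x : E3) : 0 ≤ Lc c ω x := by
  unfold Lc; split_ifs <;> norm_num

theorem Lc_le (c : Finset (Fin M)) (ω : Fin M → E3 × ℝ) (x : E3) : Lc c ω x ≤ 1 := by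
  unfold Lc; split_ifs <;> norm_num

theorem II_nonneg (ω : Fin M → E3 × ℝ) (x y : E3) : 0 ≤ II ω x y := by
  unfold II; split_ifs <;> norm_num

theorem II_le (ω : Fin M → E3 × ℝ) (x y : E3) : II ω x y ≤ 1 := by
  unfold II; split_ifs <;> norm_num

theorem measurable_II :
    Measurable (fun q : (Fin M → E3 × ℝ) × E3 × E3 => II q.1 q.2.1 q.2.2) := by
  simp only [II_eq]
  refine Finset.measurable_sum _ fun c _ => ?_
  refine Measurable.mul ?_ ?_
  · exact (measurable_Lc c).comp (f := fun q : (Fin M → E3 × ℝ) × E3 × E3 => (q.1, q.2.1))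
      (by fun_prop)
  · exact (measurable_Lc c).comp (f := fun q : (Fin M → E3 × ℝ) × E3 × E3 => (q.1, q.2.2))
      (by fun_prop)

theorem integral_II {x y : E3} (hx : ‖x‖ = 1) (hy : ‖y‖ = 1) :
    ∫ ω, II ω x y ∂(plM M) = (1 - ‖x - y‖ / 4) ^ M := by
  classical
  rw [← planes_real hx hy M]
  have hm : MeasurableSet {ω : Fin M → E3 × ℝ | ∀ m, x ∈ hs (ω m) ↔ y ∈ hs (ω m)} := by
    have h := measurable_II (M := M)
    have h2 : Measurable (fun ω : Fin M → E3 × ℝ => II ω x y) :=
      h.comp (f := fun ω : Fin M → E3 × ℝ => (ω, x, y)) (by fun_prop)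
    have h3 : {ω : Fin M → E3 × ℝ | ∀ m, x ∈ hs (ω m) ↔ y ∈ hs (ω m)} =
        (fun ω : Fin M → E3 × ℝ => II ω x y) ⁻¹' {1} := by
      ext ω
      simp only [mem_ofPred_eq, mem_preimage, mem_singleton_iff, II, label_eq_iff]
      constructor
      · intro h; rw [if_pos h]
      · intro h
        by_contra hn
        rw [if_neg hn] at h
        norm_num at h
    rw [h3]
    exact h2 (measurableSet_singleton 1)
  rw [← integral_indicator_one hm]
  refine integral_congr_ae (Filter.Eventually.of_forall fun ω => ?_)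
  simp only [II, label_eq_iff, indicator, mem_ofPred_eq, Pi.one_apply]

end Label

/-- the inequality for one choice of the half spaces -/
theorem cells_nonneg {N M : ℕ} (x : Fin N → E3) (ω : Fin M → E3 × ℝ) :
    0 ≤ (∑ i, ∑ j, II ω (x i) (x j)) - 2 * N * (∑ i, ∫ y, II ω (x i) y ∂sig) +
      (N : ℝ) ^ 2 * ∫ y, ∫ z, II ω y z ∂sig ∂sig := by
  have hmL : ∀ c : Finset (Fin M), Measurable (fun y => Lc c ω y) := fun c =>
    (measurable_Lc c).comp (f := fun y : E3 => (ω, y)) (by fun_prop)
  have hiL : ∀ c : Finset (Fin M), Integrable (fun y => Lc c ω y) sig := fun c =>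
    Integrable.of_bound (hmL c).aestronglyMeasurable 1 (Filter.Eventually.of_forall fun y => by
      rw [Real.norm_eq_abs, abs_of_nonneg (Lc_nonneg c ω y)]; exact Lc_le c ω y)
  set n : Finset (Fin M) → ℝ := fun c => ∑ i, Lc c ω (x i) with hn
  set s : Finset (Fin M) → ℝ := fun c => ∫ y, Lc c ω y ∂sig with hs
  have h1 : (∑ i, ∑ j, II ω (x i) (x j)) = ∑ c, n c * n c := by
    symm
    simp only [II_eq, hn, Finset.sum_mul_sum]
    rw [Finset.sum_comm]
    refine Finset.sum_congr rfl fun i _ => ?_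
    rw [Finset.sum_comm]
  have h2 : ∀ w : E3, ∫ y, II ω w y ∂sig = ∑ c, Lc c ω w * s c := by
    intro w
    simp only [II_eq]
    rw [integral_finsetSum _ fun c _ => (hiL c).const_mul _]
    refine Finset.sum_congr rfl fun c _ => ?_
    rw [integral_const_mul]
  have h3 : (∑ i, ∫ y, II ω (x i) y ∂sig) = ∑ c, n c * s c := by
    simp only [h2, hn, Finset.sum_mul]
    rw [Finset.sum_comm]
  have h4 : ∫ y, ∫ z, II ω y z ∂sig ∂sig = ∑ c, s c * s c := by
    simp only [h2]
    rw [integral_finsetSum _ fun c _ => (hiL c).mul_const _]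
    refine Finset.sum_congr rfl fun c _ => ?_
    rw [integral_mul_const]
  rw [h1, h3, h4]
  have h5 : (∑ c, n c * n c) - 2 * N * (∑ c, n c * s c) + (N : ℝ) ^ 2 * ∑ c, s c * s c =
      ∑ c, (n c - N * s c) ^ 2 := by
    rw [Finset.mul_sum, Finset.mul_sum, ← Finset.sum_sub_distrib, ← Finset.sum_add_distrib]
    refine Finset.sum_congr rfl fun c _ => ?_
    ring
  rw [h5]
  positivity

theorem measurable_kpow (M : ℕ) : Measurable (fun r : ℝ => (1 - r / 4) ^ M) := by fun_prop

/-- `N² m_M ≤ ∑_{i,j} (1 - |x i - x j| / 4) ^ M` -/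
theorem pd_pow {N : ℕ} (x : Fin N → E3) (hx : ∀ i, ‖x i‖ = 1) (M : ℕ) :
    (N : ℝ) ^ 2 * bg (fun r => (1 - r / 4) ^ M) ≤
      N + PS x (fun r => (1 - r / 4) ^ M) := by
  classical
  have hI : ∀ (q : (Fin M → E3 × ℝ) × E3 × E3), ‖II q.1 q.2.1 q.2.2‖ ≤ 1 := fun q => by
    rw [Real.norm_eq_abs, abs_of_nonneg (II_nonneg _ _ _)]; exact II_le _ _ _
  have hm := measurable_II (M := M)
  have i1 : ∀ i j, Integrable (fun ω => II ω (x i) (x j)) (plM M) := fun i j =>
    Integrable.of_bound (hm.comp (f := fun ω : Fin M → E3 × ℝ => (ω, x i, x j))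
      (by fun_prop)).aestronglyMeasurable 1 (Filter.Eventually.of_forall fun ω => hI (ω, x i, x j))
  have m2 : ∀ i, Measurable (fun q : (Fin M → E3 × ℝ) × E3 => II q.1 (x i) q.2) := fun i =>
    hm.comp (f := fun q : (Fin M → E3 × ℝ) × E3 => (q.1, x i, q.2)) (by fun_prop)
  have i2 : ∀ i, Integrable (fun q : (Fin M → E3 × ℝ) × E3 => II q.1 (x i) q.2)
      ((plM M).prod sig) := fun i =>
    Integrable.of_bound (m2 i).aestronglyMeasurable 1
      (Filter.Eventually.of_forall fun q => hI (q.1, x i, q.2))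
  have i3 : Integrable (fun q : (Fin M → E3 × ℝ) × E3 × E3 => II q.1 q.2.1 q.2.2)
      ((plM M).prod (sig.prod sig)) :=
    Integrable.of_bound hm.aestronglyMeasurable 1 (Filter.Eventually.of_forall hI)
  have hsec : ∀ ω : Fin M → E3 × ℝ, ∫ y, ∫ z, II ω y z ∂sig ∂sig =
      ∫ p, II ω p.1 p.2 ∂(sig.prod sig) := by
    intro ω
    rw [integral_prod]
    exact Integrable.of_bound (hm.comp (f := fun p : E3 × E3 => (ω, p.1, p.2))
      (by fun_prop)).aestronglyMeasurable 1 (Filter.Eventually.of_forall fun p => hI (ω, p.1, p.2))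
  -- the three expectations
  have e1 : ∫ ω, ∑ i, ∑ j, II ω (x i) (x j) ∂(plM M) =
      ∑ i, ∑ j, (1 - ‖x i - x j‖ / 4) ^ M := by
    rw [integral_finsetSum _ fun i _ => integrable_finsetSum _ fun j _ => i1 i j]
    refine Finset.sum_congr rfl fun i _ => ?_
    rw [integral_finsetSum _ fun j _ => i1 i j]
    exact Finset.sum_congr rfl fun j _ => integral_II (hx i) (hx j)
  have e2 : ∀ i, ∫ ω, ∫ y, II ω (x i) y ∂sig ∂(plM M) = bg (fun r => (1 - r / 4) ^ M) := by
    intro i
    rw [integral_integral_swap (i2 i), ← integral_dist (hx i) (measurable_kpow M)]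
    refine integral_congr_ae ?_
    filter_upwards [ae_norm_sig] with y hy
    exact integral_II (hx i) hy
  have e3 : ∫ ω, ∫ y, ∫ z, II ω y z ∂sig ∂sig ∂(plM M) = bg (fun r => (1 - r / 4) ^ M) := by
    simp only [hsec]
    rw [integral_integral_swap (f := fun ω (p : E3 × E3) => II ω p.1 p.2) i3, integral_prod]
    · have : ∀ᵐ y ∂sig, ∫ z, ∫ ω, II ω y z ∂(plM M) ∂sig = bg (fun r => (1 - r / 4) ^ M) := by
        filter_upwards [ae_norm_sig] with y hy
        rw [← integral_dist hy (measurable_kpow M)]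
        refine integral_congr_ae ?_
        filter_upwards [ae_norm_sig] with z hz
        exact integral_II hy hz
      rw [integral_congr_ae this]
      simp
    · exact i3.integral_prod_right
  have key : 0 ≤ ∫ ω, ((∑ i, ∑ j, II ω (x i) (x j)) - 2 * N * (∑ i, ∫ y, II ω (x i) y ∂sig) +
      (N : ℝ) ^ 2 * ∫ y, ∫ z, II ω y z ∂sig ∂sig) ∂(plM M) :=
    integral_nonneg fun ω => cells_nonneg x ω
  have j1 : Integrable (fun ω => ∑ i, ∑ j, II ω (x i) (x j)) (plM M) :=
    integrable_finsetSum _ fun i _ => integrable_finsetSum _ fun j _ => i1 i j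
  have j2 : Integrable (fun ω => ∑ i, ∫ y, II ω (x i) y ∂sig) (plM M) :=
    integrable_finsetSum _ fun i _ => (i2 i).integral_prod_left
  have j3 : Integrable (fun ω => ∫ y, ∫ z, II ω y z ∂sig ∂sig) (plM M) := by
    simp only [hsec]
    exact i3.integral_prod_left
  rw [integral_add (f := fun ω => (∑ i, ∑ j, II ω (x i) (x j)) -
      2 * N * (∑ i, ∫ y, II ω (x i) y ∂sig)) (j1.sub (j2.const_mul _)) (j3.const_mul _),
    integral_sub j1 (j2.const_mul _),
    integral_const_mul, integral_const_mul, e1, e3,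
    integral_finsetSum _ (fun i _ => (i2 i).integral_prod_left)] at key
  simp only [e2, Finset.sum_const, Finset.card_univ, Fintype.card_fin, nsmul_eq_mul] at key
  have h6 : ∑ i, ∑ j, (1 - ‖x i - x j‖ / 4) ^ M = N + PS x (fun r => (1 - r / 4) ^ M) := by
    rw [← Finset.sum_product', ← Finset.diag_union_offDiag,
      Finset.sum_union (Finset.disjoint_diag_offDiag _), Finset.sum_diag, PS]
    simp
  rw [h6] at key
  nlinarith [key]

theorem pd_exp {N : ℕ} (x : Fin N → E3) (hx : ∀ i, ‖x i‖ = 1) {w : ℝ} (hw : 0 ≤ w) :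
    (N : ℝ) ^ 2 * bg (fun r => Real.exp (-w * r)) ≤
      N + PS x (fun r => Real.exp (-w * r)) := by
  set p : ℕ → ℝ := fun M => Real.exp (-(4 * w)) * ((4 * w) ^ M / M.factorial) with hp
  have hp0 : ∀ M, 0 ≤ p M := fun M => by positivity
  have hexp : ∀ t : ℝ, HasSum (fun M => p M * t ^ M) (Real.exp (-(4 * w)) * Real.exp (4 * w * t)) := by
    intro t
    have h := (NormedSpace.expSeries_div_hasSum_exp (𝔸 := ℝ) (4 * w * t))
    rw [← Real.exp_eq_exp_ℝ] at h
    have h2 := h.mul_left (Real.exp (-(4 * w)))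
    rw [show (fun M => p M * t ^ M) = fun M => Real.exp (-(4 * w)) * ((4 * w * t) ^ M / M.factorial) from
      funext fun M => by simp only [hp, mul_pow]; ring]
    exact h2
  have hsum : ∀ r : ℝ, HasSum (fun M => p M * (1 - r / 4) ^ M) (Real.exp (-w * r)) := by
    intro r
    have h := hexp (1 - r / 4)
    rw [← Real.exp_add] at h
    have e : -(4 * w) + 4 * w * (1 - r / 4) = -w * r := by ring
    rwa [e] at h
  have hone : HasSum p 1 := by
    have h := hsum 0
    simpa using h
  have hbg : HasSum (fun M => p M * bg (fun r => (1 - r / 4) ^ M)) (bg (fun r => Real.exp (-w * r))) := by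
    have h := intervalIntegral.hasSum_integral_of_dominated_convergence (μ := volume) (a := 0) (b := 2)
      (F := fun M r => p M * (1 - r / 4) ^ M * (r / 2)) (f := fun r => Real.exp (-w * r) * (r / 2))
      (fun M _ => p M) (fun M => by
        exact (Continuous.aestronglyMeasurable (by fun_prop)))
      (fun M => Filter.Eventually.of_forall fun r hr => by
        rw [uIoc_of_le (by norm_num)] at hr
        have h1 : 0 ≤ 1 - r / 4 := by linarith [hr.2]
        have h2 : 1 - r / 4 ≤ 1 := by linarith [hr.1]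
        have h3 : (1 - r / 4) ^ M ≤ 1 := pow_le_one₀ h1 h2
        have h4 : 0 ≤ (1 - r / 4) ^ M := pow_nonneg h1 M
        have h5 : 0 ≤ r / 2 := by linarith [hr.1]
        have h6 : r / 2 ≤ 1 := by linarith [hr.2]
        rw [Real.norm_eq_abs, abs_of_nonneg (mul_nonneg (mul_nonneg (hp0 M) h4) h5), mul_assoc]
        exact mul_le_of_le_one_right (hp0 M) (mul_le_one₀ h3 h5 h6))
      (Filter.Eventually.of_forall fun r _ => hone.summable)
      (by simp)
      (Filter.Eventually.of_forall fun r _ => (hsum r).mul_right (r / 2))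
    have e : ∀ M, p M * bg (fun r => (1 - r / 4) ^ M) =
        ∫ r in (0 : ℝ)..2, p M * (1 - r / 4) ^ M * (r / 2) := by
      intro M
      rw [bg, ← intervalIntegral.integral_const_mul]
      refine intervalIntegral.integral_congr fun r _ => ?_
      ring
    rw [show (fun M => p M * bg (fun r => (1 - r / 4) ^ M)) = _ from funext e]
    exact h
  have hPS : HasSum (fun M => p M * PS x (fun r => (1 - r / 4) ^ M)) (PS x (fun r => Real.exp (-w * r))) := by
    simp only [PS, Finset.mul_sum]
    exact hasSum_sum fun q _ => hsum _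
  have hR := (hone.mul_right (N : ℝ)).add hPS
  rw [one_mul] at hR
  refine hasSum_le (fun M => ?_) (hbg.mul_left ((N : ℝ) ^ 2)) hR
  have h7 := mul_le_mul_of_nonneg_left (pd_pow x hx M) (hp0 M)
  nlinarith [h7]

end Pool.Agent.Helper62.RZ
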